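import Pool.Agent.H525.PV.Stm
import Pool.Agent.H525.SH.SQ
import Pool.Agent.H525.SH.PAF
import Pool.Agent.H525.SH.LAT

/-! # SQ2: norms of values of polynomials divisible by the square of a prime number (project PV, helper525) -/

set_option autoImplicit false

namespace Pool.Agent.H428.PV

open Finset NumberField Filter Polynomial
open Pool.Agent.H525.PV
open Pool.Agent.H525.SH (PA S_PAF S_LAT)
open Pool.Agent.H525.SH.X (BI BI_spec card_BI mem_BI PA_ne_bot t_PAF t_LAT)
open Pool.Agent.H525.NF (Box mem_Box)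

open scoped Classical

set_option linter.unusedSectionVars false
set_option linter.style.haveILetI false

variable {K : Type} [Field K] [NumberField K]

theorem bez_gen {R S : Type} [CommRing R] [IsDomain R] [Field S] [Algebra R S] [IsFractionRing R S]
    (f : R[X]) (hsep : (f.map (algebraMap R S)).Separable) :
    ∃ (u v : R[X]) (δ : R), δ ≠ 0 ∧ u * f + v * derivative f = C δ := by
  obtain ⟨a, b, hab⟩ := hsep
  obtain ⟨d1, hd1, h1⟩ := IsLocalization.integerNormalization_spec (nonZeroDivisors R) a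
  obtain ⟨d2, hd2, h2⟩ := IsLocalization.integerNormalization_spec (nonZeroDivisors R) b
  set u0 := IsLocalization.integerNormalization (nonZeroDivisors R) a with hu0
  set v0 := IsLocalization.integerNormalization (nonZeroDivisors R) b with hv0
  refine ⟨C d2 * u0, C d1 * v0, d1 * d2,
    mul_ne_zero (nonZeroDivisors.ne_zero hd1) (nonZeroDivisors.ne_zero hd2), ?_⟩
  have hinj : Function.Injective (Polynomial.map (algebraMap R S)) :=
    Polynomial.map_injective _ (IsFractionRing.injective R S)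
  apply hinj
  have e1 : ∀ (d : R) (q : S[X]), d • q = C (algebraMap R S d) * q := by
    intro d q
    ext n
    rw [coeff_C_mul, Polynomial.coeff_smul, Algebra.smul_def]
  rw [e1] at h1 h2
  rw [Polynomial.map_add, Polynomial.map_mul, Polynomial.map_mul, Polynomial.map_mul,
    Polynomial.map_mul, Polynomial.map_C, Polynomial.map_C, Polynomial.map_C, h1, h2,
    ← Polynomial.derivative_map, map_mul, C_mul]
  linear_combination (C (algebraMap R S d1) * C (algebraMap R S d2)) * hab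

/-- The identity of Bezout for `f` and its derivative. -/
theorem bez (f : (𝓞 K)[X]) (hf : Irreducible (f.map (algebraMap (𝓞 K) K))) :
    ∃ (u v : (𝓞 K)[X]) (δ : 𝓞 K), δ ≠ 0 ∧ u * f + v * derivative f = C δ :=
  bez_gen (S := K) f hf.separable

/-- The roots modulo a prime ideal. -/
theorem roots_mod (f : (𝓞 K)[X]) (P : Ideal (𝓞 K)) (hP : P.IsPrime)
    (hlc : f.leadingCoeff ∉ P) : ∃ T : Finset (𝓞 K ⧸ P), T.card ≤ f.natDegree ∧
      ∀ z : 𝓞 K, f.eval z ∈ P → Ideal.Quotient.mk P z ∈ T := by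
  haveI := hP
  set g := f.map (Ideal.Quotient.mk P) with hg
  have hg0 : g ≠ 0 := by
    intro h0
    apply hlc
    have h1 : g.coeff f.natDegree = 0 := by rw [h0, coeff_zero]
    rw [hg, coeff_map, Ideal.Quotient.eq_zero_iff_mem] at h1
    exact h1
  refine ⟨g.roots.toFinset, ?_, ?_⟩
  · calc g.roots.toFinset.card ≤ Multiset.card g.roots := Multiset.toFinset_card_le _
      _ ≤ g.natDegree := card_roots' g
      _ ≤ f.natDegree := natDegree_map_le
  · intro z hz
    rw [Multiset.mem_toFinset, mem_roots hg0, IsRoot.def, hg, eval_map, eval₂_at_apply,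
      Ideal.Quotient.eq_zero_iff_mem]
    exact hz

/-- Two approximate roots which agree modulo `P` agree modulo `P ^ 2`. -/
theorem hensel {f u v : (𝓞 K)[X]} {δ : 𝓞 K} (huv : u * f + v * derivative f = C δ)
    {P : Ideal (𝓞 K)} (hP : P.IsPrime) (hδ : δ ∉ P) {z z' : 𝓞 K} (h : f.eval z ∈ P * P)
    (h' : f.eval z' ∈ P * P) (hzz : z - z' ∈ P) : z - z' ∈ P * P := by
  haveI := hP
  obtain ⟨k, hk⟩ := f.binomExpansion z' (z - z')
  rw [add_sub_cancel] at hk
  have h1 : (z - z') * (f.derivative.eval z' + k * (z - z')) = f.eval z - f.eval z' := by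
    rw [hk]; ring
  have h2 : (z - z') * (f.derivative.eval z' + k * (z - z')) ∈ P ^ 2 := by
    rw [h1, sq]
    exact Ideal.sub_mem _ h h'
  rcases Ideal.IsPrime.mem_pow_mul P h2 with h3 | h3
  · rw [← sq]; exact h3
  · exfalso
    apply hδ
    have h4 : f.derivative.eval z' ∈ P := by
      have h5 : k * (z - z') ∈ P := Ideal.mul_mem_left _ _ hzz
      have h6 := Ideal.sub_mem _ h3 h5
      rwa [add_sub_cancel_right] at h6
    have h7 : δ = u.eval z' * f.eval z' + v.eval z' * f.derivative.eval z' := by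
      have := congrArg (Polynomial.eval z') huv
      rw [eval_add, eval_mul, eval_mul, eval_C] at this
      exact this.symm
    rw [h7]
    exact Ideal.add_mem _ (Ideal.mul_mem_left _ _ (Ideal.mul_le_left h')) (Ideal.mul_mem_left _ _ h4)

/-- The points of a box in an ideal of large norm. -/
theorem box_count {ι : Type} [Fintype ι] (b : Module.Basis ι ℤ (𝓞 K)) {C : ℝ} (hC : 1 ≤ C)
    (hLat : ∀ (I : Ideal (𝓞 K)), I ≠ ⊥ →
      ∀ (s : ℝ), 0 < s → s ^ Fintype.card ι = Ideal.absNorm I → ∀ (a : ι → ℤ) (W : ℕ),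
      |(((Box a W).filter (fun x => (∑ i, x i • b i) ∈ I)).card : ℝ) -
        ((W : ℝ) / s) ^ Fintype.card ι| ≤ C * (((W : ℝ) / s) ^ (Fintype.card ι - 1) + 1))
    {p : ℕ} (hp : p.Prime) (a : ι → ℤ) (W : ℕ) (I : Ideal (𝓞 K)) (hI : I ∈ BI K p) :
    (((Box a W).filter (fun x => (∑ i, x i • b i) ∈ I)).card : ℝ) ≤
      (1 + 2 * C) * ((W : ℝ) ^ Fintype.card ι / (p : ℝ) ^ 2 + 1) := by
  have hcard : Fintype.card ι = Module.finrank ℚ K := by
    rw [← RingOfIntegers.rank K, Module.finrank_eq_card_basis b]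
  have hDpos : 0 < Module.finrank ℚ K := Module.finrank_pos
  have hpp : (0 : ℝ) < (p : ℝ) ^ 2 := by
    have := hp.pos
    positivity
  set M : ℝ := (W : ℝ) ^ Fintype.card ι / (p : ℝ) ^ 2 with hM
  have hM0 : 0 ≤ M := by positivity
  obtain ⟨hI0, hIp⟩ := BI_spec t_PAF hp hI
  have hn0 : 0 < Ideal.absNorm I := Nat.pos_of_ne_zero (by
    rw [Ne, Ideal.absNorm_eq_zero_iff]
    exact hI0)
  have hn0' : (0 : ℝ) < Ideal.absNorm I := by exact_mod_cast hn0
  set s : ℝ := (Ideal.absNorm I : ℝ) ^ ((1 : ℝ) / (Fintype.card ι : ℝ)) with hs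
  have hspos : 0 < s := Real.rpow_pos_of_pos hn0' _
  have hsd : s ^ Fintype.card ι = Ideal.absNorm I := by
    rw [hs, ← Real.rpow_natCast, ← Real.rpow_mul hn0'.le]
    rw [one_div_mul_cancel, Real.rpow_one]
    rw [hcard]
    exact_mod_cast hDpos.ne'
  have h1 := hLat I hI0 s hspos hsd a W
  have h2 := (abs_le.1 h1).2
  set x : ℝ := (W : ℝ) / s with hx
  have hx0 : 0 ≤ x := by positivity
  have h3 : x ^ Fintype.card ι ≤ M := by
    rw [hx, div_pow, hsd, hM]
    apply div_le_div_of_nonneg_left (by positivity) hpp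
    exact_mod_cast hIp
  have h4 : x ^ (Fintype.card ι - 1) ≤ x ^ Fintype.card ι + 1 := by
    rcases le_total x 1 with h5 | h5
    · have h6 : x ^ (Fintype.card ι - 1) ≤ 1 := pow_le_one₀ hx0 h5
      have h7 : 0 ≤ x ^ Fintype.card ι := by positivity
      linarith
    · have h6 : x ^ (Fintype.card ι - 1) ≤ x ^ Fintype.card ι :=
        pow_le_pow_right₀ h5 (Nat.sub_le _ _)
      linarith
  have h5 : C * (x ^ (Fintype.card ι - 1) + 1) ≤ C * (M + 2) :=
    mul_le_mul_of_nonneg_left (by linarith) (by linarith)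
  nlinarith

/-- The points of a box with values in an ideal, from the number of the classes. -/
theorem class_count {ι : Type} [Fintype ι] (b : Module.Basis ι ℤ (𝓞 K)) (f : (𝓞 K)[X])
    (a : ι → ℤ) (W : ℕ) (I P Q : Ideal (𝓞 K)) (B : ℝ) (hB : 0 ≤ B)
    (hbox : ∀ a' : ι → ℤ, (((Box a' W).filter (fun x => (∑ i, x i • b i) ∈ I)).card : ℝ) ≤ B)
    (TP : Finset (𝓞 K ⧸ P)) (TQ : Finset (𝓞 K ⧸ Q))
    (hTP : ∀ z : 𝓞 K, f.eval z ∈ I → Ideal.Quotient.mk P z ∈ TP)
    (hTQ : ∀ z : 𝓞 K, f.eval z ∈ I → Ideal.Quotient.mk Q z ∈ TQ)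
    (hcl : ∀ z z' : 𝓞 K, f.eval z ∈ I → f.eval z' ∈ I → z - z' ∈ P → z - z' ∈ Q → z - z' ∈ I) :
    (((Box a W).filter (fun x => f.eval (∑ i, x i • b i) ∈ I)).card : ℝ) ≤
      ((TP.card * TQ.card : ℕ) : ℝ) * B := by
  set S := (Box a W).filter (fun x => f.eval (∑ i, x i • b i) ∈ I) with hS
  set key : (ι → ℤ) → (𝓞 K ⧸ P) × (𝓞 K ⧸ Q) := fun x =>
    (Ideal.Quotient.mk P (∑ i, x i • b i), Ideal.Quotient.mk Q (∑ i, x i • b i)) with hkey
  have hmem : ∀ x ∈ S, key x ∈ TP ×ˢ TQ := by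
    intro x hx
    have h1 := (mem_filter.1 hx).2
    rw [mem_product]
    exact ⟨hTP _ h1, hTQ _ h1⟩
  have hsum : S.card = ∑ q ∈ TP ×ˢ TQ, (S.filter (fun x => key x = q)).card :=
    Finset.card_eq_sum_card_fiberwise hmem
  rw [hsum, Nat.cast_sum]
  have hfib : ∀ q ∈ TP ×ˢ TQ, ((S.filter (fun x => key x = q)).card : ℝ) ≤ B := by
    intro q _
    rcases (S.filter (fun x => key x = q)).eq_empty_or_nonempty with h0 | ⟨x0, hx0⟩
    · rw [h0]
      simpa using hB
    · obtain ⟨hx0S, hx0q⟩ := mem_filter.1 hx0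
      obtain ⟨hx0B, hx0I⟩ := mem_filter.1 hx0S
      refine le_trans ?_ (hbox (fun i => a i - x0 i))
      norm_cast
      refine Finset.card_le_card_of_injOn (fun x i => x i - x0 i) ?_ ?_
      · intro x hx
        obtain ⟨hxS, hxq⟩ := mem_filter.1 hx
        obtain ⟨hxB, hxI⟩ := mem_filter.1 hxS
        rw [Finset.mem_coe, mem_filter]
        refine ⟨?_, ?_⟩
        · rw [mem_Box] at hxB ⊢
          intro i
          have := hxB i
          constructor <;> linarith [this.1, this.2]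
        · have e : (∑ i, (x i - x0 i) • b i) = (∑ i, x i • b i) - ∑ i, x0 i • b i := by
            rw [← Finset.sum_sub_distrib]
            exact Finset.sum_congr rfl fun i _ => sub_smul _ _ _
          rw [e]
          have hk : key x = key x0 := hxq.trans hx0q.symm
          have hk1 : Ideal.Quotient.mk P (∑ i, x i • b i) = Ideal.Quotient.mk P (∑ i, x0 i • b i) :=
            congrArg Prod.fst hk
          have hk2 : Ideal.Quotient.mk Q (∑ i, x i • b i) = Ideal.Quotient.mk Q (∑ i, x0 i • b i) :=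
            congrArg Prod.snd hk
          exact hcl _ _ hxI hx0I (Ideal.Quotient.eq.1 hk1) (Ideal.Quotient.eq.1 hk2)
      · intro x _ y _ hxy
        funext i
        have := congrFun hxy i
        simp only at this
        linarith
  refine (Finset.sum_le_sum hfib).trans ?_
  rw [Finset.sum_const, nsmul_eq_mul, card_product]

theorem t_SQ2 : S_SQ2 := by
  intro K _ _ f hirr hdeg ι _ b
  obtain ⟨C, hC, hLat⟩ := t_LAT K ι b
  obtain ⟨u, v, δ, hδ0, huv⟩ := bez f hirr
  set D : ℕ := Module.finrank ℚ K with hD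
  set g : ℕ := f.natDegree with hg
  have hf0 : f ≠ 0 := by
    intro h
    rw [hg, h, natDegree_zero] at hdeg
    omega
  have hlc0 : f.leadingCoeff ≠ 0 := leadingCoeff_ne_zero.2 hf0
  set e : 𝓞 K := δ * f.leadingCoeff with he
  have he0 : e ≠ 0 := mul_ne_zero hδ0 hlc0
  refine ⟨1 + ((D + D ^ 2) * (g * g) : ℕ) * (1 + 2 * C), (Algebra.norm ℤ e).natAbs + 1, ?_, ?_⟩
  · have : (0 : ℝ) ≤ ((D + D ^ 2) * (g * g) : ℕ) * (1 + 2 * C) := by positivity
    linarith
  intro p hp hpe a W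
  have hpp : (0 : ℝ) < (p : ℝ) ^ 2 := by
    have := hp.pos
    positivity
  set M : ℝ := (W : ℝ) ^ Fintype.card ι / (p : ℝ) ^ 2 with hM
  have hM0 : 0 ≤ M := by positivity
  have hPA := t_PAF K p hp
  have hnot : ∀ P ∈ PA K p, e ∉ P := by
    intro P hP heP
    have h1 : p ∣ (Algebra.norm ℤ e).natAbs := (hPA.2.2.2 e).2 ⟨P, hP, heP⟩
    have h2 : (Algebra.norm ℤ e).natAbs ≠ 0 := by
      rw [Ne, Int.natAbs_eq_zero]
      exact Algebra.norm_ne_zero_iff.2 he0
    have := Nat.le_of_dvd (Nat.pos_of_ne_zero h2) h1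
    omega
  have hδP : ∀ P ∈ PA K p, δ ∉ P := fun P hP h => hnot P hP (Ideal.mul_mem_right _ _ h)
  have hlcP : ∀ P ∈ PA K p, f.leadingCoeff ∉ P := fun P hP h => hnot P hP (Ideal.mul_mem_left _ _ h)
  have hB0 : (0 : ℝ) ≤ (1 + 2 * C) * (M + 1) := by positivity
  -- one ideal
  have hone : ∀ I ∈ BI K p, (((Box a W).filter (fun x => f.eval (∑ i, x i • b i) ∈ I)).card : ℝ) ≤
      ((g * g : ℕ) : ℝ) * ((1 + 2 * C) * (M + 1)) := by
    intro I hI
    obtain ⟨P, Q, hPm, hQm, hIP, hIQ, hcl⟩ : ∃ P Q : Ideal (𝓞 K), P ∈ PA K p ∧ Q ∈ PA K p ∧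
        I ≤ P ∧ I ≤ Q ∧ ∀ z z' : 𝓞 K, f.eval z ∈ I → f.eval z' ∈ I → z - z' ∈ P → z - z' ∈ Q →
          z - z' ∈ I := by
      unfold BI at hI
      rw [mem_union, mem_filter, mem_image] at hI
      rcases hI with ⟨h1, _⟩ | ⟨⟨P, Q⟩, h1, rfl⟩
      · exact ⟨I, I, h1, h1, le_rfl, le_rfl, fun z z' _ _ h _ => h⟩
      · rw [mem_product] at h1
        refine ⟨P, Q, h1.1, h1.2, Ideal.mul_le_left, Ideal.mul_le_right, ?_⟩
        intro z z' hz hz' hzP hzQ
        have hPp := ((hPA.1 P).1 h1.1).1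
        have hQp := ((hPA.1 Q).1 h1.2).1
        by_cases hPQ : P = Q
        · have hPQ' : Q = P := hPQ.symm
          simp only at hz hz'
          rw [hPQ'] at hz hz' ⊢
          exact hensel huv hPp (hδP P h1.1) hz hz' hzP
        · haveI hPmx : P.IsMaximal := hPp.isMaximal (PA_ne_bot t_PAF hp h1.1)
          haveI hQmx : Q.IsMaximal := hQp.isMaximal (PA_ne_bot t_PAF hp h1.2)
          have hcop : IsCoprime P Q := Ideal.isCoprime_of_isMaximal hPQ
          have := Ideal.mul_eq_inf_of_isCoprime hcop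
          simp only
          rw [this]
          exact ⟨hzP, hzQ⟩
    obtain ⟨TP, hTP, hTP'⟩ := roots_mod f P ((hPA.1 P).1 hPm).1 (hlcP P hPm)
    obtain ⟨TQ, hTQ, hTQ'⟩ := roots_mod f Q ((hPA.1 Q).1 hQm).1 (hlcP Q hQm)
    refine (class_count b f a W I P Q _ hB0 (fun a' => box_count b hC hLat hp a' W I hI) TP TQ
      (fun z hz => hTP' z (hIP hz)) (fun z hz => hTQ' z (hIQ hz)) hcl).trans ?_
    apply mul_le_mul_of_nonneg_right _ hB0
    exact_mod_cast Nat.mul_le_mul hTP hTQ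
  -- the union
  set F : Finset (ι → ℤ) := (Box a W).filter
    (fun x => p ^ 2 ∣ (Algebra.norm ℤ (f.eval (∑ i, x i • b i))).natAbs) with hF
  have hsub : F ⊆ (BI K p).biUnion
      (fun I => (Box a W).filter (fun x => f.eval (∑ i, x i • b i) ∈ I)) := by
    intro x hx
    rw [hF, mem_filter] at hx
    rw [mem_biUnion]
    by_cases h0 : f.eval (∑ i, x i • b i) = 0
    · obtain ⟨P, hP, _⟩ := (hPA.2.2.2 0).1 (by simp)
      refine ⟨P * P, ?_, mem_filter.2 ⟨hx.1, ?_⟩⟩
      · unfold BI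
        rw [mem_union, mem_image]
        exact Or.inr ⟨(P, P), mem_product.2 ⟨hP, hP⟩, rfl⟩
      · rw [h0]
        exact Ideal.zero_mem _
    · obtain ⟨I, hI, hzI⟩ := mem_BI t_PAF hp h0 hx.2
      exact ⟨I, hI, mem_filter.2 ⟨hx.1, hzI⟩⟩
  have h1 : F.card ≤ ∑ I ∈ BI K p,
      ((Box a W).filter (fun x => f.eval (∑ i, x i • b i) ∈ I)).card :=
    (Finset.card_le_card hsub).trans Finset.card_biUnion_le
  have h2 : (F.card : ℝ) ≤ ∑ I ∈ BI K p,
      (((Box a W).filter (fun x => f.eval (∑ i, x i • b i) ∈ I)).card : ℝ) := by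
    exact_mod_cast h1
  have h3 : ∑ I ∈ BI K p,
      (((Box a W).filter (fun x => f.eval (∑ i, x i • b i) ∈ I)).card : ℝ) ≤
      (D + D ^ 2 : ℕ) * (((g * g : ℕ) : ℝ) * ((1 + 2 * C) * (M + 1))) := by
    refine (Finset.sum_le_sum hone).trans ?_
    rw [Finset.sum_const, nsmul_eq_mul]
    apply mul_le_mul_of_nonneg_right _ (by positivity)
    exact_mod_cast card_BI t_PAF hp
  have h4 : (1 + ((D + D ^ 2) * (g * g) : ℕ) * (1 + 2 * C)) * (M + 1) =
      (M + 1) + (D + D ^ 2 : ℕ) * (((g * g : ℕ) : ℝ) * ((1 + 2 * C) * (M + 1))) := by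
    push_cast
    ring
  rw [h4]
  linarith

end Pool.Agent.H428.PV
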